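import Pool.Agent.Helper59.GT.Stmt
import Pool.Agent.Helper59.GT.Bridge

/-!
# MP_af5028_an: transitive geodesic flows are `C ^ 1`-generic in every smooth conformal class on the torus `T ^ n`, `n ≥ 3`

The definitions are in `Pool/Agent/Helper59/GT/Stmt.lean`.
-/

set_option autoImplicit false

open scoped ContDiff
open Pool.Agent.Helper59.GTS

namespace Pool.Agent.Helper59.OldResults.GenericTransitive

/-- Let `n ≥ 3` and let `g` be a smooth Riemannian metric on the torus `T ^ n`.
(1) For every `ε > 0` there is a smooth function `u` with `|u| < ε`, `‖D u‖ < ε` such that `exp (2 u) g` has a closed geodesic whose unit tangent vectors are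
`ε`-dense in the unit tangent bundle.
(2) For all `u` in a dense `G_δ` set of `C ^ 1 (T ^ n)`, the metric `exp (2 u) g` has exactly one unit speed geodesic for each initial vector, and its geodesic
flow is transitive.
(3) So for every `ε > 0` there is a metric `g'` of class `C ^ 1`, `ε`-close to `g` in the `C ^ 1` norm, with unique geodesics and transitive geodesic flow. -/
theorem result (n : ℕ) (hn : 3 ≤ n) (g : E n → E n → E n → ℝ) (hg : IsMetric ∞ g) :
    (∀ ε : ℝ, 0 < ε → ∃ u : E n → ℝ, IsFun ∞ u ∧ Close 0 u ε ∧ ∃ (c : ℝ → E n) (P : ℝ), 0 < P ∧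
      (∃ k, ∀ t, c (t + P) = c t + latt k) ∧
        IsGeodesic (conf u g) c ∧ UnitSpeed (conf u g) c ∧ EpsDense (conf u g) c ε) ∧
    (∃ R : Set (E n → ℝ), DenseGdelta R ∧ ∀ u ∈ R, UniqueGeodesics (conf u g) ∧ Transitive (conf u g)) ∧
    ∀ ε : ℝ, 0 < ε → ∃ g' : E n → E n → E n → ℝ, IsMetric 1 g' ∧
      (∀ u v, ‖u‖ ≤ 1 → ‖v‖ ≤ 1 → Close (fun x => g x u v) (fun x => g' x u v) ε) ∧
      UniqueGeodesics g' ∧ Transitive g' :=
  Pool.Agent.Helper59.GT.main hn hg

end Pool.Agent.Helper59.OldResults.GenericTransitive
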